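import Pool.Agent.W680.SG.Thm

/-!
# Spectral bound = growth bound for positive groups on an ordered Hilbert space

`H` is a nonzero real Hilbert space, `P` a closed, normal, generating cone in `H`, `E` the
complexification of `H` (through `J : H → E`), `T` a strongly continuous group of operators on `E`
with `T t (J '' P) ⊆ J '' P` for every real `t`.  Then the growth bound
`ω₀ = lim (1/t) log ‖T t‖` exists as a real number and equals the spectral bound of the generator.
-/

set_option autoImplicit false

open Filter Topology Pool.Agent.W680.SG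

namespace Pool.Agent.Results.MP_e5770a_an.SpectralGrowth

theorem result {H : Type*} [NormedAddCommGroup H] [InnerProductSpace ℝ H] [CompleteSpace H]
    [Nontrivial H] {E : Type*} [NormedAddCommGroup E] [InnerProductSpace ℂ E] [CompleteSpace E]
    (P : Set H) (hP : IsOrderCone P) (J : H →ₗ[ℝ] E) (hJ : IsComplexification J)
    (T : ℝ → E →L[ℂ] E) (hT : IsGroup T) (hpos : ∀ t, ∀ x ∈ P, ∃ y ∈ P, T t (J x) = J y) :
    ∃ ω : ℝ, Tendsto (fun t : ℝ => t⁻¹ * Real.log ‖T t‖) atTop (𝓝 ω) ∧
      spectralBound T = (ω : EReal) :=
  spectralBound_eq hT hJ hP hpos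

end Pool.Agent.Results.MP_e5770a_an.SpectralGrowth
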